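import Pool.Agent.Helper41.KV.GoalsD

/-! # Packet KV-RESI: integral bounds of the residual -/

set_option autoImplicit false

namespace Pool.Agent.Helper41.KV

open Real MeasureTheory Pool.Agent.Helper33.KV

namespace RESI

/-- Cauchy density -/
noncomputable def cau (m y : ℝ) : ℝ := (1 + (m * y) ^ 2)⁻¹

theorem cau_pos (m y : ℝ) : 0 < cau m y := by unfold cau; positivity

theorem cau_int {m : ℝ} (hm : 0 < m) : Integrable (cau m) :=
  integrable_inv_one_add_sq.comp_mul_left' hm.ne'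

theorem cau_val {m : ℝ} (hm : 0 < m) : ∫ y, cau m y = π / m := by
  have h := integral_comp_mul_left_real hm
  unfold cau
  rw [h, integral_univ_inv_one_add_sq]
  ring
where
  integral_comp_mul_left_real {m : ℝ} (hm : 0 < m) :
      ∫ y : ℝ, (1 + (m * y) ^ 2)⁻¹ = m⁻¹ * ∫ x : ℝ, (1 + x ^ 2)⁻¹ := by
    have h := Measure.integral_comp_mul_left (fun x : ℝ => (1 + x ^ 2)⁻¹) m
    rw [h, abs_of_pos (inv_pos.2 hm), smul_eq_mul]

theorem le_cau {m y a : ℝ} (h : (m * y) ^ 2 ≤ a) : 1 ≤ (1 + a) * cau m y := by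
  unfold cau
  rw [← div_eq_mul_inv, one_le_div (by positivity)]
  linarith

theorem exp_cau {x : ℝ} (hx : 0 ≤ x) : exp (-(x / 2)) ≤ 8 * cau 1 x := by
  have h1 := Real.quadratic_le_exp_of_nonneg (show 0 ≤ x / 2 by linarith)
  unfold cau
  rw [exp_neg, ← div_eq_mul_inv, inv_eq_one_div, one_mul, div_le_div_iff₀ (exp_pos _) (by positivity)]
  nlinarith

theorem exp_cauK {K x : ℝ} (hK : 1 ≤ K) (hx : 0 ≤ x) :
    exp (-(x / (2 * K))) ≤ 8 * K ^ 2 * cau 1 x := by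
  have h1 := exp_cau (show 0 ≤ x / K by positivity)
  have h2 : x / K / 2 = x / (2 * K) := by field_simp
  rw [h2] at h1
  refine h1.trans ?_
  unfold cau
  rw [mul_assoc]
  refine mul_le_mul_of_nonneg_left ?_ (by norm_num)
  rw [one_mul, one_mul, ← div_eq_mul_inv, inv_eq_one_div, div_le_div_iff₀ (by positivity) (by positivity)]
  have h3 : K ^ 2 * (1 + (x / K) ^ 2) = K ^ 2 + x ^ 2 := by field_simp
  rw [h3]
  nlinarith

/-- the pointwise bounds -/
structure PB (C q u : ℝ) (J n n1 : ℕ) (f : ℝ → ℝ) : Prop where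
  fA : ∀ y, -1 ≤ u * y → y ≤ 0 →
    |f y| ≤ C * (q ^ 8) ^ J * (1 + |y|) ^ n1 + 16 * C * (q ^ 8) ^ (2 * n + 3)
  fB : ∀ y, 0 ≤ y →
    |f y| ≤ C * (q ^ 8) ^ J * exp (-(y / 4)) + C * (q ^ 8) ^ (2 * n + 3) * (1 + q ^ 8 * y)⁻¹
  fC : ∀ y, u * y ≤ -1 → |f y| ≤ C * q ^ 12
  fD : ∀ y, y ≤ -(2 * (q ^ 4)⁻¹) → |f y| ≤ C * exp (-(|y| / 2))

/-- the majorants -/
noncomputable def G1 (B C q u : ℝ) (J n : ℕ) (y : ℝ) : ℝ :=
  2 * B ^ 2 * (q ^ 8) ^ (2 * J) / q ^ 2 * cau u y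
    + (16 * C ^ 2 * (q ^ 8) ^ (2 * J) + 8 * C ^ 2 * exp (-(q ^ 4)⁻¹)) * cau 1 y
    + 2 * C ^ 2 * (q ^ 8) ^ (4 * n + 6) * cau (q ^ 8) y + 5 * C ^ 2 * q ^ 24 * cau (q ^ 4) y

noncomputable def G2 (K B C q u : ℝ) (J n : ℕ) (y : ℝ) : ℝ :=
  2 * B ^ 2 * (q ^ 8) ^ (2 * J) / q ^ 2 * cau u y
    + (16 * C ^ 2 * (q ^ 8) ^ (2 * J) + 8 * K ^ 2 * C ^ 2 * q ^ 16 * exp (-(2 * K * u)⁻¹)) * cau 1 y
    + 2 * C ^ 2 * (q ^ 8) ^ (4 * n + 6) * cau (q ^ 8) y

theorem wt_le_one {K ρ y : ℝ} (hρ : 0 < ρ) : wt K ρ y ≤ 1 := by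
  unfold wt
  rw [div_le_one (by positivity)]
  have : 0 < ρ * exp (-(y / K)) := by positivity
  linarith

theorem wt_nonneg {K ρ y : ℝ} (hρ : 0 < ρ) : 0 ≤ wt K ρ y := by
  unfold wt
  positivity

theorem wt_le {K ρ y : ℝ} (hρ : 0 < ρ) : wt K ρ y ≤ ρ⁻¹ * exp (y / K) := by
  unfold wt
  have h1 : ρ⁻¹ * exp (y / K) = 1 / (ρ * exp (-(y / K))) := by
    rw [exp_neg]
    field_simp
  rw [h1]
  apply one_div_le_one_div_of_le (by positivity)
  linarith [exp_pos (-(y / K))]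

theorem pt {K C B q u : ℝ} {J n n1 : ℕ} {f : ℝ → ℝ} (hK : 1 ≤ K) (hC : 0 ≤ C)
    (hB : B = C * (2 ^ n1 + 16)) (hq : 0 < q) (hq1 : q ≤ 1) (hqu : q ≤ u) (hu1 : u ≤ 1)
    (hun : q ≤ u ^ n1) (hJ : 3 ≤ J) (hn : J ≤ n) (hqB : q ^ 2 * B ≤ 1)
    (h : PB C q u J n n1 f) (y : ℝ) :
    f y ^ 2 ≤ G1 B C q u J n y ∧ wt K (q ^ 8) y * f y ^ 2 ≤ G2 K B C q u J n y ∧
      |f y| ≤ q ^ 10 := by
  have hu0 : 0 < u := lt_of_lt_of_le hq hqu
  have hr0 : 0 < q ^ 8 := by positivity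
  have hr1 : q ^ 8 ≤ 1 := pow_le_one₀ hq.le hq1
  have hB0 : 0 ≤ B := by rw [hB]; positivity
  have hCB : 2 * C ≤ B := by
    rw [hB]
    have h1 : (0 : ℝ) ≤ C * 2 ^ n1 := by positivity
    linarith
  have hCB1 : C ≤ B := by linarith
  have c1 := cau_pos u y
  have c2 := cau_pos 1 y
  have c3 := cau_pos (q ^ 8) y
  have c4 := cau_pos (q ^ 4) y
  have hw1 := wt_le_one (K := K) (y := y) hr0
  have hw0 := wt_nonneg (K := K) (y := y) hr0
  have p1 : 0 ≤ 2 * B ^ 2 * (q ^ 8) ^ (2 * J) / q ^ 2 * cau u y := by positivity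
  have p2 : 0 ≤ 16 * C ^ 2 * (q ^ 8) ^ (2 * J) * cau 1 y := by positivity
  have p3 : 0 ≤ 8 * C ^ 2 * exp (-(q ^ 4)⁻¹) * cau 1 y := by positivity
  have p4 : 0 ≤ 2 * C ^ 2 * (q ^ 8) ^ (4 * n + 6) * cau (q ^ 8) y := by positivity
  have p5 : 0 ≤ 5 * C ^ 2 * q ^ 24 * cau (q ^ 4) y := by positivity
  have p6 : 0 ≤ 8 * K ^ 2 * C ^ 2 * q ^ 16 * exp (-(2 * K * u)⁻¹) * cau 1 y := by positivity
  have eG1 : G1 B C q u J n y = 2 * B ^ 2 * (q ^ 8) ^ (2 * J) / q ^ 2 * cau u y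
      + 16 * C ^ 2 * (q ^ 8) ^ (2 * J) * cau 1 y + 8 * C ^ 2 * exp (-(q ^ 4)⁻¹) * cau 1 y
      + 2 * C ^ 2 * (q ^ 8) ^ (4 * n + 6) * cau (q ^ 8) y
      + 5 * C ^ 2 * q ^ 24 * cau (q ^ 4) y := by unfold G1; ring
  have eG2 : G2 K B C q u J n y = 2 * B ^ 2 * (q ^ 8) ^ (2 * J) / q ^ 2 * cau u y
      + 16 * C ^ 2 * (q ^ 8) ^ (2 * J) * cau 1 y
      + 8 * K ^ 2 * C ^ 2 * q ^ 16 * exp (-(2 * K * u)⁻¹) * cau 1 y
      + 2 * C ^ 2 * (q ^ 8) ^ (4 * n + 6) * cau (q ^ 8) y := by unfold G2; ring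
  rw [eG1, eG2]
  have hwf : ∀ M : ℝ, f y ^ 2 ≤ M → wt K (q ^ 8) y * f y ^ 2 ≤ M := fun M hM =>
    (mul_le_of_le_one_left (sq_nonneg _) hw1).trans hM
  have hrJ : (q ^ 8) ^ J ≤ q ^ 24 := by
    rw [← pow_mul]
    exact pow_le_pow_of_le_one hq.le hq1 (by omega)
  rcases le_total 0 y with hy | hy
  · -- right
    have h1 := h.fB y hy
    have e1 : exp (-(y / 4)) ≤ 1 := exp_le_one_iff.2 (by linarith)
    have e2 : (1 + q ^ 8 * y)⁻¹ ≤ 1 := by
      apply inv_le_one_of_one_le₀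
      have : 0 ≤ q ^ 8 * y := by positivity
      linarith
    have e3 : (q ^ 8) ^ (2 * n + 3) ≤ q ^ 24 := by
      rw [← pow_mul]
      exact pow_le_pow_of_le_one hq.le hq1 (by omega)
    have hf2 : f y ^ 2 ≤ 16 * C ^ 2 * (q ^ 8) ^ (2 * J) * cau 1 y
        + 2 * C ^ 2 * (q ^ 8) ^ (4 * n + 6) * cau (q ^ 8) y := by
      have g1 : f y ^ 2 ≤ (C * (q ^ 8) ^ J * exp (-(y / 4))
          + C * (q ^ 8) ^ (2 * n + 3) * (1 + q ^ 8 * y)⁻¹) ^ 2 := by
        rw [← sq_abs (f y)]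
        exact pow_le_pow_left₀ (abs_nonneg _) h1 2
      have g2 : ∀ a b : ℝ, (a + b) ^ 2 ≤ 2 * a ^ 2 + 2 * b ^ 2 := fun a b => by
        nlinarith [sq_nonneg (a - b)]
      refine g1.trans ((g2 _ _).trans (add_le_add ?_ ?_))
      · have g3 : exp (-(y / 4)) ^ 2 = exp (-(y / 2)) := by
          rw [← exp_nat_mul]
          congr 1
          push_cast
          ring
        have g4 := exp_cau hy
        calc 2 * (C * (q ^ 8) ^ J * exp (-(y / 4))) ^ 2
            = 2 * C ^ 2 * (q ^ 8) ^ (2 * J) * exp (-(y / 2)) := by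
              rw [← g3, mul_pow, mul_pow, ← pow_mul, mul_comm J 2]; ring
          _ ≤ 2 * C ^ 2 * (q ^ 8) ^ (2 * J) * (8 * cau 1 y) := by
              apply mul_le_mul_of_nonneg_left g4
              positivity
          _ = _ := by ring
      · have g5 : ((1 + q ^ 8 * y)⁻¹) ^ 2 ≤ cau (q ^ 8) y := by
          unfold cau
          have : 0 ≤ q ^ 8 * y := by positivity
          have h7 : 1 + (q ^ 8 * y) ^ 2 ≤ (1 + q ^ 8 * y) ^ 2 := by nlinarith
          calc ((1 + q ^ 8 * y)⁻¹) ^ 2 = ((1 + q ^ 8 * y) ^ 2)⁻¹ := by rw [inv_pow]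
            _ ≤ (1 + (q ^ 8 * y) ^ 2)⁻¹ := inv_anti₀ (by positivity) h7
        calc 2 * (C * (q ^ 8) ^ (2 * n + 3) * (1 + q ^ 8 * y)⁻¹) ^ 2
            = 2 * C ^ 2 * (q ^ 8) ^ (4 * n + 6) * ((1 + q ^ 8 * y)⁻¹) ^ 2 := by
              rw [mul_pow, mul_pow, ← pow_mul, show (2 * n + 3) * 2 = 4 * n + 6 by ring]; ring
          _ ≤ 2 * C ^ 2 * (q ^ 8) ^ (4 * n + 6) * cau (q ^ 8) y := by
              apply mul_le_mul_of_nonneg_left g5
              positivity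
    refine ⟨by linarith, ?_, ?_⟩
    · have := hwf _ hf2
      linarith
    · have g1 : |f y| ≤ C * q ^ 24 * 1 + C * q ^ 24 * 1 := by
        refine h1.trans (add_le_add ?_ ?_)
        · apply mul_le_mul (mul_le_mul_of_nonneg_left hrJ hC) e1 (exp_pos _).le (by positivity)
        · apply mul_le_mul (mul_le_mul_of_nonneg_left e3 hC) e2 (by positivity) (by positivity)
      calc |f y| ≤ (2 * C) * q ^ 24 := by linarith
        _ ≤ B * q ^ 24 := mul_le_mul_of_nonneg_right hCB (by positivity)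
        _ = (q ^ 2 * B) * q ^ 22 := by ring
        _ ≤ 1 * q ^ 22 := mul_le_mul_of_nonneg_right hqB (by positivity)
        _ = q ^ 22 := one_mul _
        _ ≤ q ^ 10 := pow_le_pow_of_le_one hq.le hq1 (by norm_num)
  · rcases le_total (-1) (u * y) with hy2 | hy2
    · -- near left
      have h1 := h.fA y hy2 hy
      have h2 : (1 + |y|) ^ n1 ≤ 2 ^ n1 / q := by
        have h3 : |y| ≤ 1 / u := by
          rw [abs_of_nonpos hy, le_div_iff₀ hu0]
          linarith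
        have h4 : 1 ≤ 1 / u := by
          rw [le_div_iff₀ hu0]
          linarith
        calc (1 + |y|) ^ n1 ≤ (2 / u) ^ n1 := by
              apply pow_le_pow_left₀ (by positivity)
              have : 2 / u = 1 / u + 1 / u := by ring
              linarith
          _ = 2 ^ n1 / u ^ n1 := div_pow _ _ _
          _ ≤ 2 ^ n1 / q := by
              apply div_le_div_of_nonneg_left (by positivity) hq hun
      have h5 : (q ^ 8) ^ (2 * n + 3) ≤ (q ^ 8) ^ J / q := by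
        have h6 : (q ^ 8) ^ (2 * n + 3) ≤ (q ^ 8) ^ J :=
          pow_le_pow_of_le_one hr0.le hr1 (by omega)
        have h7 : (q ^ 8) ^ J ≤ (q ^ 8) ^ J / q := by
          rw [le_div_iff₀ hq]
          exact mul_le_of_le_one_right (by positivity) hq1
        exact h6.trans h7
      have h8 : |f y| ≤ B * (q ^ 8) ^ J / q := by
        calc |f y| ≤ C * (q ^ 8) ^ J * (1 + |y|) ^ n1 + 16 * C * (q ^ 8) ^ (2 * n + 3) := h1
          _ ≤ C * (q ^ 8) ^ J * (2 ^ n1 / q) + 16 * C * ((q ^ 8) ^ J / q) :=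
              add_le_add (mul_le_mul_of_nonneg_left h2 (by positivity))
                (mul_le_mul_of_nonneg_left h5 (by positivity))
          _ = B * (q ^ 8) ^ J / q := by rw [hB]; ring
      have h9 := le_cau (m := u) (y := y) (a := 1) (by
        have : |u * y| ≤ 1 := abs_le.2 ⟨hy2, (mul_nonpos_of_nonneg_of_nonpos hu0.le hy).trans
          (by norm_num)⟩
        rw [← sq_abs]
        exact pow_le_one₀ (abs_nonneg _) this)
      have hf2 : f y ^ 2 ≤ 2 * B ^ 2 * (q ^ 8) ^ (2 * J) / q ^ 2 * cau u y := by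
        have g1 : f y ^ 2 ≤ (B * (q ^ 8) ^ J / q) ^ 2 := by
          rw [← sq_abs (f y)]
          exact pow_le_pow_left₀ (abs_nonneg _) h8 2
        calc f y ^ 2 ≤ (B * (q ^ 8) ^ J / q) ^ 2 := g1
          _ = (B * (q ^ 8) ^ J / q) ^ 2 * 1 := (mul_one _).symm
          _ ≤ (B * (q ^ 8) ^ J / q) ^ 2 * ((1 + 1) * cau u y) :=
              mul_le_mul_of_nonneg_left h9 (by positivity)
          _ = _ := by rw [div_pow, mul_pow, ← pow_mul, mul_comm J 2]; ring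
      refine ⟨by linarith, ?_, ?_⟩
      · have := hwf _ hf2
        linarith
      · calc |f y| ≤ B * (q ^ 8) ^ J / q := h8
          _ ≤ B * q ^ 24 / q := by gcongr
          _ = (q ^ 2 * B) * q ^ 21 := by field_simp
          _ ≤ 1 * q ^ 21 := mul_le_mul_of_nonneg_right hqB (by positivity)
          _ = q ^ 21 := one_mul _
          _ ≤ q ^ 10 := pow_le_pow_of_le_one hq.le hq1 (by norm_num)
    · -- far left
      have h1 := h.fC y hy2
      have hf2 : f y ^ 2 ≤ C ^ 2 * q ^ 24 := by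
        calc f y ^ 2 = |f y| ^ 2 := (sq_abs _).symm
          _ ≤ (C * q ^ 12) ^ 2 := pow_le_pow_left₀ (abs_nonneg _) h1 2
          _ = _ := by ring
      refine ⟨?_, ?_, ?_⟩
      · rcases le_total y (-(2 * (q ^ 4)⁻¹)) with hy3 | hy3
        · have h2 := h.fD y hy3
          have h3 : |y| = -y := abs_of_nonpos hy
          have h4 : f y ^ 2 ≤ C ^ 2 * exp (-|y|) := by
            calc f y ^ 2 = |f y| ^ 2 := (sq_abs _).symm
              _ ≤ (C * exp (-(|y| / 2))) ^ 2 := pow_le_pow_left₀ (abs_nonneg _) h2 2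
              _ = _ := by
                rw [mul_pow, ← exp_nat_mul]
                congr 2
                push_cast
                ring
          have h5 : exp (-|y|) ≤ exp (-(q ^ 4)⁻¹) * (8 * cau 1 y) := by
            have h6 : exp (-|y|) = exp (-(|y| / 2)) * exp (-(|y| / 2)) := by
              rw [← exp_add]; congr 1; ring
            rw [h6]
            apply mul_le_mul _ _ (exp_pos _).le (exp_pos _).le
            · apply exp_le_exp.2
              rw [h3]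
              linarith
            · have h7 := exp_cau (abs_nonneg y)
              have h8 : cau 1 |y| = cau 1 y := by
                unfold cau
                rw [one_mul, one_mul, sq_abs]
              rw [h8] at h7
              exact h7
          have h6 := mul_le_mul_of_nonneg_left h5 (sq_nonneg C)
          linarith
        · have h2 := le_cau (m := q ^ 4) (y := y) (a := 4) (by
            have h3 : -2 ≤ q ^ 4 * y := by
              have h4 := mul_le_mul_of_nonneg_left hy3 (show 0 ≤ q ^ 4 by positivity)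
              have h5 : q ^ 4 * -(2 * (q ^ 4)⁻¹) = -2 := by field_simp
              linarith
            have h4 : q ^ 4 * y ≤ 0 := mul_nonpos_of_nonneg_of_nonpos (by positivity) hy
            nlinarith)
          have h3 : C ^ 2 * q ^ 24 ≤ C ^ 2 * q ^ 24 * ((1 + 4) * cau (q ^ 4) y) :=
            le_mul_of_one_le_right (by positivity) h2
          linarith
      · have h2 := wt_le (K := K) (y := y) hr0
        have hyu : 1 / u ≤ -y := by
          rw [div_le_iff₀ hu0]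
          linarith
        have h3 : exp (y / K) ≤ exp (-(2 * K * u)⁻¹) * (8 * K ^ 2 * cau 1 y) := by
          have h4 : exp (y / K) = exp (-((-y) / (2 * K))) * exp (-((-y) / (2 * K))) := by
            rw [← exp_add]; congr 1; field_simp; ring
          rw [h4]
          apply mul_le_mul _ _ (exp_pos _).le (exp_pos _).le
          · apply exp_le_exp.2
            apply neg_le_neg
            have : (2 * K * u)⁻¹ = (1 / u) / (2 * K) := by field_simp
            rw [this]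
            exact div_le_div_of_nonneg_right hyu (by positivity)
          · have h7 := exp_cauK hK (show 0 ≤ -y by linarith)
            have h8 : cau 1 (-y) = cau 1 y := by
              unfold cau
              congr 1
              ring
            rw [h8] at h7
            exact h7
        have h5 : wt K (q ^ 8) y * f y ^ 2 ≤ ((q ^ 8)⁻¹ * exp (y / K)) * (C ^ 2 * q ^ 24) :=
          mul_le_mul h2 hf2 (sq_nonneg _) (by positivity)
        have h6 : ((q ^ 8)⁻¹ * exp (y / K)) * (C ^ 2 * q ^ 24) = C ^ 2 * q ^ 16 * exp (y / K) := by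
          field_simp
        have h7 := mul_le_mul_of_nonneg_left h3 (show 0 ≤ C ^ 2 * q ^ 16 by positivity)
        linarith
      · calc |f y| ≤ C * q ^ 12 := h1
          _ ≤ B * q ^ 12 := mul_le_mul_of_nonneg_right hCB1 (by positivity)
          _ = (q ^ 2 * B) * q ^ 10 := by ring
          _ ≤ 1 * q ^ 10 := mul_le_mul_of_nonneg_right hqB (by positivity)
          _ = q ^ 10 := one_mul _

theorem sum4 (a b c d : ℝ) (f1 f2 f3 f4 : ℝ → ℝ) (h1 : Integrable f1) (h2 : Integrable f2)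
    (h3 : Integrable f3) (h4 : Integrable f4) :
    Integrable (fun y => a * f1 y + b * f2 y + c * f3 y + d * f4 y) ∧
    ∫ y, (a * f1 y + b * f2 y + c * f3 y + d * f4 y) =
      a * (∫ y, f1 y) + b * (∫ y, f2 y) + c * (∫ y, f3 y) + d * (∫ y, f4 y) := by
  have i1 : Integrable (fun y => a * f1 y) := h1.const_mul a
  have i2 : Integrable (fun y => b * f2 y) := h2.const_mul b
  have i3 : Integrable (fun y => c * f3 y) := h3.const_mul c
  have i4 : Integrable (fun y => d * f4 y) := h4.const_mul d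
  have i12 : Integrable (fun y => a * f1 y + b * f2 y) := i1.add i2
  have i123 : Integrable (fun y => a * f1 y + b * f2 y + c * f3 y) := i12.add i3
  refine ⟨i123.add i4, ?_⟩
  rw [integral_add i123 i4, integral_add i12 i3, integral_add i1 i2,
    integral_const_mul, integral_const_mul, integral_const_mul, integral_const_mul]

theorem G1_int {B C q u : ℝ} {J n : ℕ} (hq : 0 < q) (hu : 0 < u) :
    Integrable (G1 B C q u J n) ∧ ∫ y, G1 B C q u J n y =
      π * (2 * B ^ 2 * (q ^ 8) ^ (2 * J) / (q ^ 2 * u) + 16 * C ^ 2 * (q ^ 8) ^ (2 * J)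
        + 8 * C ^ 2 * exp (-(q ^ 4)⁻¹) + 2 * C ^ 2 * (q ^ 8) ^ (4 * n + 5)
        + 5 * C ^ 2 * q ^ 20) := by
  obtain ⟨h1, h2⟩ := sum4 (2 * B ^ 2 * (q ^ 8) ^ (2 * J) / q ^ 2)
    (16 * C ^ 2 * (q ^ 8) ^ (2 * J) + 8 * C ^ 2 * exp (-(q ^ 4)⁻¹))
    (2 * C ^ 2 * (q ^ 8) ^ (4 * n + 6)) (5 * C ^ 2 * q ^ 24) (cau u) (cau 1) (cau (q ^ 8))
    (cau (q ^ 4)) (cau_int hu) (cau_int one_pos) (cau_int (by positivity)) (cau_int (by positivity))
  refine ⟨h1, ?_⟩
  unfold G1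
  rw [h2, cau_val hu, cau_val one_pos, cau_val (show 0 < q ^ 8 by positivity),
    cau_val (show 0 < q ^ 4 by positivity)]
  have e1 : (q ^ 8) ^ (4 * n + 6) = (q ^ 8) ^ (4 * n + 5) * q ^ 8 := by rw [← pow_succ]
  rw [e1]
  field_simp
  ring

theorem G2_int {K B C q u : ℝ} {J n : ℕ} (hq : 0 < q) (hu : 0 < u) :
    Integrable (G2 K B C q u J n) ∧ ∫ y, G2 K B C q u J n y =
      π * (2 * B ^ 2 * (q ^ 8) ^ (2 * J) / (q ^ 2 * u) + 16 * C ^ 2 * (q ^ 8) ^ (2 * J)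
        + 8 * K ^ 2 * C ^ 2 * q ^ 16 * exp (-(2 * K * u)⁻¹)
        + 2 * C ^ 2 * (q ^ 8) ^ (4 * n + 5)) := by
  obtain ⟨h1, h2⟩ := sum4 (2 * B ^ 2 * (q ^ 8) ^ (2 * J) / q ^ 2)
    (16 * C ^ 2 * (q ^ 8) ^ (2 * J) + 8 * K ^ 2 * C ^ 2 * q ^ 16 * exp (-(2 * K * u)⁻¹))
    (2 * C ^ 2 * (q ^ 8) ^ (4 * n + 6)) 0 (cau u) (cau 1) (cau (q ^ 8))
    (cau 1) (cau_int hu) (cau_int one_pos) (cau_int (by positivity)) (cau_int one_pos)
  have e0 : G2 K B C q u J n = fun y => 2 * B ^ 2 * (q ^ 8) ^ (2 * J) / q ^ 2 * cau u y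
      + (16 * C ^ 2 * (q ^ 8) ^ (2 * J) + 8 * K ^ 2 * C ^ 2 * q ^ 16 * exp (-(2 * K * u)⁻¹)) * cau 1 y
      + 2 * C ^ 2 * (q ^ 8) ^ (4 * n + 6) * cau (q ^ 8) y + 0 * cau 1 y := by
    funext y
    rw [G2]
    ring
  rw [e0]
  refine ⟨h1, ?_⟩
  rw [h2, cau_val hu, cau_val one_pos, cau_val (show 0 < q ^ 8 by positivity)]
  have e1 : (q ^ 8) ^ (4 * n + 6) = (q ^ 8) ^ (4 * n + 5) * q ^ 8 := by rw [← pow_succ]
  rw [e1]
  field_simp
  ring

/-- the integral bounds -/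
theorem core {K C B q u c : ℝ} {J n n1 N0 : ℕ} {E : ℝ → ℝ} (hK : 1 ≤ K) (hC : 0 ≤ C)
    (hB : B = C * (2 ^ n1 + 16)) (hq : 0 < q) (hq1 : q ≤ 1) (hqu : q ≤ u) (hu1 : u ≤ 1)
    (hun : q ≤ u ^ n1) (hN : N0 + 1 ≤ J) (hJ : 3 ≤ J) (hn : J ≤ n) (hqB : q ^ 2 * B ≤ 1)
    (hc : exp (-(2 * K * u)⁻¹) ≤ c * (q ^ 8) ^ (2 * N0))
    (hE : ContDiff ℝ (⊤ : ℕ∞) E) (h0 : PB C q u J n n1 E) (h1 : PB C q u J n n1 (deriv E)) :
    (∫ y, wt K (q ^ 8) y * (E y ^ 2 + deriv E y ^ 2)) ≤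
        (2 * π * (2 * B ^ 2 + 16 * C ^ 2 + 960 * C ^ 2 + 8 * K ^ 2 * C ^ 2 * c + 2 * C ^ 2
          + 5 * C ^ 2)) * (q ^ 8) ^ (2 * N0) ∧
      Integrable (fun y => E y ^ 2 + deriv E y ^ 2) ∧
      (∫ y, (E y ^ 2 + deriv E y ^ 2)) ≤
        (2 * π * (2 * B ^ 2 + 16 * C ^ 2 + 960 * C ^ 2 + 8 * K ^ 2 * C ^ 2 * c + 2 * C ^ 2
          + 5 * C ^ 2)) * q ^ 20 ∧
      (∀ y, |E y| ≤ q ^ 10) := by
  have hu0 : 0 < u := lt_of_lt_of_le hq hqu
  have hr0 : 0 < q ^ 8 := by positivity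
  have hr1 : q ^ 8 ≤ 1 := pow_le_one₀ hq.le hq1
  have hc0 : 0 ≤ c := by
    by_contra hcon
    push Not at hcon
    have : c * (q ^ 8) ^ (2 * N0) ≤ 0 := mul_nonpos_of_nonpos_of_nonneg hcon.le (by positivity)
    linarith [exp_pos (-(2 * K * u)⁻¹)]
  have a0 := fun y => pt hK hC hB hq hq1 hqu hu1 hun hJ hn hqB h0 y
  have a1 := fun y => pt hK hC hB hq hq1 hqu hu1 hun hJ hn hqB h1 y
  obtain ⟨i1, v1⟩ := G1_int (B := B) (C := C) (J := J) (n := n) hq hu0
  obtain ⟨i2, v2⟩ := G2_int (K := K) (B := B) (C := C) (J := J) (n := n) hq hu0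
  have hcE : Continuous E := hE.continuous
  have hcE' : Continuous (deriv E) := hE.continuous_deriv (by norm_num)
  have hcont : Continuous (fun y => E y ^ 2 + deriv E y ^ 2) := by fun_prop
  have hint : Integrable (fun y => E y ^ 2 + deriv E y ^ 2) := by
    refine (i1.const_mul 2).mono' hcont.aestronglyMeasurable (Filter.Eventually.of_forall fun y => ?_)
    rw [norm_of_nonneg (by positivity)]
    have := (a0 y).1
    have := (a1 y).1
    linarith
  have b1 : (q ^ 8) ^ (2 * J) / (q ^ 2 * u) ≤ (q ^ 8) ^ (2 * N0) ∧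
      (q ^ 8) ^ (2 * J) / (q ^ 2 * u) ≤ q ^ 20 := by
    have e0 : q ^ 3 ≤ q ^ 2 * u := by
      calc q ^ 3 = q ^ 2 * q := by ring
        _ ≤ q ^ 2 * u := mul_le_mul_of_nonneg_left hqu (by positivity)
    have e1 : (q ^ 8) ^ (2 * J) / (q ^ 2 * u) ≤ (q ^ 8) ^ (2 * J) / q ^ 3 :=
      div_le_div_of_nonneg_left (by positivity) (by positivity) e0
    have e2 : (q ^ 8) ^ (2 * J) = q ^ 3 * q ^ (16 * J - 3) := by
      rw [← pow_mul, ← pow_add]
      congr 1
      omega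
    have e3 : (q ^ 8) ^ (2 * J) / q ^ 3 = q ^ (16 * J - 3) := by
      rw [e2]
      field_simp
    rw [e3] at e1
    refine ⟨e1.trans ?_, e1.trans (pow_le_pow_of_le_one hq.le hq1 (by omega))⟩
    rw [← pow_mul]
    exact pow_le_pow_of_le_one hq.le hq1 (by omega)
  have b2 : (q ^ 8) ^ (2 * J) ≤ (q ^ 8) ^ (2 * N0) ∧ (q ^ 8) ^ (2 * J) ≤ q ^ 20 :=
    ⟨pow_le_pow_of_le_one hr0.le hr1 (by omega), by
      rw [← pow_mul]
      exact pow_le_pow_of_le_one hq.le hq1 (by omega)⟩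
  have b3 : (q ^ 8) ^ (4 * n + 5) ≤ (q ^ 8) ^ (2 * N0) ∧ (q ^ 8) ^ (4 * n + 5) ≤ q ^ 20 :=
    ⟨pow_le_pow_of_le_one hr0.le hr1 (by omega), by
      rw [← pow_mul]
      exact pow_le_pow_of_le_one hq.le hq1 (by omega)⟩
  have b4 : exp (-(q ^ 4)⁻¹) ≤ 120 * q ^ 20 := by
    have e1 := Real.pow_div_factorial_le_exp ((q ^ 4)⁻¹) (by positivity) 5
    have e2 : ((5 : ℕ).factorial : ℝ) = 120 := by norm_num [Nat.factorial]
    rw [e2] at e1
    have e3 : ((q ^ 4)⁻¹) ^ 5 = (q ^ 20)⁻¹ := by rw [inv_pow, ← pow_mul]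
    rw [e3] at e1
    rw [exp_neg, inv_le_comm₀ (exp_pos _) (by positivity)]
    refine le_trans (le_of_eq ?_) e1
    field_simp
  have b5 : q ^ 16 ≤ 1 := pow_le_one₀ hq.le hq1
  have hp1 : 0 ≤ (q ^ 8) ^ (2 * N0) := by positivity
  have hp2 : 0 ≤ q ^ 20 := by positivity
  refine ⟨?_, hint, ?_, fun y => (a0 y).2.2⟩
  · have f1 : (∫ y, wt K (q ^ 8) y * (E y ^ 2 + deriv E y ^ 2)) ≤ ∫ y, 2 * G2 K B C q u J n y := by
      refine integral_mono_of_nonneg (Filter.Eventually.of_forall fun y => ?_) (i2.const_mul 2)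
        (Filter.Eventually.of_forall fun y => ?_)
      · exact mul_nonneg (wt_nonneg hr0) (by positivity)
      · have e1 := (a0 y).2.1
        have e2 := (a1 y).2.1
        change wt K (q ^ 8) y * (E y ^ 2 + deriv E y ^ 2) ≤ 2 * G2 K B C q u J n y
        linarith
    refine f1.trans ?_
    rw [integral_const_mul, v2]
    have g1 : 2 * B ^ 2 * (q ^ 8) ^ (2 * J) / (q ^ 2 * u) ≤ 2 * B ^ 2 * (q ^ 8) ^ (2 * N0) := by
      rw [mul_div_assoc]
      exact mul_le_mul_of_nonneg_left b1.1 (by positivity)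
    have g2 : 16 * C ^ 2 * (q ^ 8) ^ (2 * J) ≤ 16 * C ^ 2 * (q ^ 8) ^ (2 * N0) :=
      mul_le_mul_of_nonneg_left b2.1 (by positivity)
    have g3 : 8 * K ^ 2 * C ^ 2 * q ^ 16 * exp (-(2 * K * u)⁻¹) ≤
        8 * K ^ 2 * C ^ 2 * (c * (q ^ 8) ^ (2 * N0)) := by
      apply mul_le_mul _ hc (exp_pos _).le (by positivity)
      exact mul_le_of_le_one_right (by positivity) b5
    have g4 : 2 * C ^ 2 * (q ^ 8) ^ (4 * n + 5) ≤ 2 * C ^ 2 * (q ^ 8) ^ (2 * N0) :=
      mul_le_mul_of_nonneg_left b3.1 (by positivity)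
    have g5 : 0 ≤ 960 * C ^ 2 * (q ^ 8) ^ (2 * N0) := by positivity
    have g6 : 0 ≤ 5 * C ^ 2 * (q ^ 8) ^ (2 * N0) := by positivity
    have g7 := mul_le_mul_of_nonneg_left (add_le_add (add_le_add (add_le_add g1 g2) g3) g4)
      (show 0 ≤ 2 * π by positivity)
    have g8 := mul_nonneg (show 0 ≤ 2 * π by positivity) (add_nonneg g5 g6)
    linarith
  · have f1 : (∫ y, (E y ^ 2 + deriv E y ^ 2)) ≤ ∫ y, 2 * G1 B C q u J n y := by
      refine integral_mono_of_nonneg (Filter.Eventually.of_forall fun y => ?_) (i1.const_mul 2)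
        (Filter.Eventually.of_forall fun y => ?_)
      · change 0 ≤ E y ^ 2 + deriv E y ^ 2
        positivity
      · have e1 := (a0 y).1
        have e2 := (a1 y).1
        change E y ^ 2 + deriv E y ^ 2 ≤ 2 * G1 B C q u J n y
        linarith
    refine f1.trans ?_
    rw [integral_const_mul, v1]
    have g1 : 2 * B ^ 2 * (q ^ 8) ^ (2 * J) / (q ^ 2 * u) ≤ 2 * B ^ 2 * q ^ 20 := by
      rw [mul_div_assoc]
      exact mul_le_mul_of_nonneg_left b1.2 (by positivity)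
    have g2 : 16 * C ^ 2 * (q ^ 8) ^ (2 * J) ≤ 16 * C ^ 2 * q ^ 20 :=
      mul_le_mul_of_nonneg_left b2.2 (by positivity)
    have g3 : 8 * C ^ 2 * exp (-(q ^ 4)⁻¹) ≤ 8 * C ^ 2 * (120 * q ^ 20) :=
      mul_le_mul_of_nonneg_left b4 (by positivity)
    have g4 : 2 * C ^ 2 * (q ^ 8) ^ (4 * n + 5) ≤ 2 * C ^ 2 * q ^ 20 :=
      mul_le_mul_of_nonneg_left b3.2 (by positivity)
    have g5 : 0 ≤ 8 * K ^ 2 * C ^ 2 * c * q ^ 20 := by positivity
    have g7 := mul_le_mul_of_nonneg_left (add_le_add (add_le_add (add_le_add g1 g2) g3) g4)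
      (show 0 ≤ 2 * π by positivity)
    have g8 := mul_nonneg (show 0 ≤ 2 * π by positivity) g5
    linarith

/-- the term with the power of `x` -/
theorem xterm {α r s l y : ℝ} {n : ℕ} (h0 : 0 < α) (h1 : α < 1) (hr : 0 < r) (hr1 : r ≤ 1)
    (hs : 0 < s) (hs1 : s ≤ 1) (hl : l = s * r) (hy : 1 / 2 ≤ 1 + r * y) :
    l ^ ((7 : ℝ) / 2) * r ^ (2 * n) * (s + l * y) ^ (α / 2 - 7 / 2) ≤
      r ^ (2 * n + 3) * (1 + r * y) ^ (α / 2 - 7 / 2) := by
  have e1 : s + l * y = s * (1 + r * y) := by rw [hl]; ring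
  have hp : 0 < 1 + r * y := by linarith
  rw [e1, hl, mul_rpow hs.le hr.le, mul_rpow hs.le hp.le]
  have e2 : s ^ ((7 : ℝ) / 2) * s ^ (α / 2 - 7 / 2) = s ^ (α / 2) := by
    rw [← rpow_add hs]
    congr 1
    ring
  have e3 : s ^ (α / 2) ≤ 1 := rpow_le_one hs.le hs1 (by linarith)
  have e4 : r ^ ((7 : ℝ) / 2) ≤ r ^ 3 := by
    rw [← rpow_natCast r 3]
    exact rpow_le_rpow_of_exponent_ge hr hr1 (by norm_num)
  have e5 : 0 ≤ (1 + r * y) ^ (α / 2 - 7 / 2) := (rpow_pos_of_pos hp _).le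
  calc s ^ ((7 : ℝ) / 2) * r ^ ((7 : ℝ) / 2) * r ^ (2 * n) *
        (s ^ (α / 2 - 7 / 2) * (1 + r * y) ^ (α / 2 - 7 / 2))
      = (s ^ ((7 : ℝ) / 2) * s ^ (α / 2 - 7 / 2)) * r ^ ((7 : ℝ) / 2) *
          (r ^ (2 * n) * (1 + r * y) ^ (α / 2 - 7 / 2)) := by ring
    _ ≤ 1 * r ^ 3 * (r ^ (2 * n) * (1 + r * y) ^ (α / 2 - 7 / 2)) := by
        rw [e2]
        apply mul_le_mul_of_nonneg_right _ (by positivity)
        exact mul_le_mul e3 e4 (rpow_pos_of_pos hr _).le (by norm_num)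
    _ = _ := by rw [pow_add]; ring

/-- the bounds with a constant -/
theorem resi_aux (hC : S_CURV) : ∀ (α K θ C : ℝ) (J n N0 n1 : ℕ), 0 < α → α < 1 → 1 ≤ K → 0 < θ →
    θ ≤ 1/8 → θ * n1 ≤ 1/8 →
    N0 + 1 ≤ J → 3 ≤ J → J ≤ n → ∃ T C' : ℝ, 0 < T ∧ ∀ t ∈ Set.Ioc 0 T, ∀ E : ℝ → ℝ,
      ContDiff ℝ (⊤ : ℕ∞) E →
      (∀ y : ℝ, ∀ k ≤ 1,
        (-1 ≤ rho α t ^ θ * y → y ≤ 0 → |iteratedDeriv k E y|
            ≤ C * rho α t ^ J * (1 + |y|) ^ n1
              + C * lam α t ^ ((7 : ℝ)/2) * rho α t ^ (2 * n)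
                * (sig α t + lam α t * y) ^ (α/2 - 7/2)) ∧
        (0 ≤ y → |iteratedDeriv k E y|
            ≤ C * rho α t ^ J * Real.exp (-y / 4)
              + C * lam α t ^ ((7 : ℝ)/2) * rho α t ^ (2 * n)
                * (sig α t + lam α t * y) ^ (α/2 - 7/2)) ∧
        (rho α t ^ θ * y ≤ -1 → |iteratedDeriv k E y| ≤ C * rho α t ^ ((3 : ℝ) / 2)) ∧
        (y ≤ -(2 * rho α t ^ (-((1 : ℝ) / 2))) → |iteratedDeriv k E y|
            ≤ C * Real.exp (-|y| / 2))) →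
      (∫ y, wt K (rho α t) y * (E y ^ 2 + deriv E y ^ 2)) ≤ C' * rho α t ^ (2 * N0) ∧
      Integrable (fun y => E y ^ 2 + deriv E y ^ 2) ∧
      (∫ y, (E y ^ 2 + deriv E y ^ 2)) ≤ C' * rho α t ^ ((5 : ℝ) / 2) ∧
      (∀ y, |E y| ≤ rho α t ^ ((5 : ℝ) / 4)) := by
  intro α K θ C J n N0 n1 h0 h1 hK hθ hθ8 hθn hN hJ hn
  obtain ⟨hcur, -, -, -, hT, -⟩ := hC α h0 h1
  set C0 := |C| with hC0
  set B := C0 * (2 ^ n1 + 16) with hB
  set m := ⌈(2 * (N0 : ℝ)) / θ⌉₊ with hm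
  set c := (m.factorial : ℝ) * (2 * K) ^ m with hc
  have hC00 : 0 ≤ C0 := abs_nonneg _
  have hB0 : 0 ≤ B := by positivity
  obtain ⟨T, hT0, hTt⟩ := hT (min (1 / 4) (1 / (B + 1) ^ 4)) (by positivity)
  refine ⟨T, 2 * π * (2 * B ^ 2 + 16 * C0 ^ 2 + 960 * C0 ^ 2 + 8 * K ^ 2 * C0 ^ 2 * c + 2 * C0 ^ 2
          + 5 * C0 ^ 2), hT0, fun t ht E hE hb => ?_⟩
  obtain ⟨hs0, hl0, hr0, hlsr, -⟩ := hcur t ht.1
  obtain ⟨ts, -, tr⟩ := hTt t ht.1 ht.2
  set r := rho α t with hr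
  set s := sig α t with hs
  have hr4 : r ≤ 1 / 4 := tr.le.trans (min_le_left _ _)
  have hrB : r ≤ 1 / (B + 1) ^ 4 := tr.le.trans (min_le_right _ _)
  have hs1 : s ≤ 1 := (ts.le.trans (min_le_left _ _)).trans (by norm_num)
  have hr1 : r ≤ 1 := by linarith
  set q := r ^ ((1 : ℝ) / 8) with hq
  have hq0 : 0 < q := rpow_pos_of_pos hr0 _
  have hqn : ∀ k : ℕ, q ^ k = r ^ ((k : ℝ) / 8) := by
    intro k
    rw [hq, ← rpow_natCast, ← rpow_mul hr0.le]
    congr 1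
    ring
  have hq8 : q ^ 8 = r := by
    rw [hqn 8]
    norm_num
  have hq1 : q ≤ 1 := rpow_le_one hr0.le hr1 (by norm_num)
  set u := r ^ θ with hu
  have hqu : q ≤ u := rpow_le_rpow_of_exponent_ge hr0 hr1 hθ8
  have hu0 : 0 < u := rpow_pos_of_pos hr0 _
  have hu1 : u ≤ 1 := rpow_le_one hr0.le hr1 hθ.le
  have hun : q ≤ u ^ n1 := by
    rw [hu, ← rpow_natCast, ← rpow_mul hr0.le]
    exact rpow_le_rpow_of_exponent_ge hr0 hr1 hθn
  have hq4 : q ^ 4 ≤ 1 / 2 := by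
    have e1 : (q ^ 4) ^ 2 = r := by rw [← hq8]; ring
    nlinarith [pow_pos hq0 4]
  have hqB : q ^ 2 * B ≤ 1 := by
    have e1 : (q ^ 2) ^ 4 = r := by rw [← hq8]; ring
    have e2 : (q ^ 2 * (B + 1)) ^ 4 ≤ 1 := by
      rw [mul_pow, e1]
      rw [le_div_iff₀ (by positivity)] at hrB
      exact hrB
    have e3 : q ^ 2 * (B + 1) ≤ 1 := by
      by_contra hcon
      push Not at hcon
      have := one_lt_pow₀ hcon (n := 4) (by norm_num)
      linarith
    have e4 : 0 < q ^ 2 := by positivity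
    linarith
  have hcc : exp (-(2 * K * u)⁻¹) ≤ c * (q ^ 8) ^ (2 * N0) := by
    have e1 := Real.pow_div_factorial_le_exp ((2 * K * u)⁻¹) (by positivity) m
    have e2 : u ^ m ≤ (q ^ 8) ^ (2 * N0) := by
      rw [hq8, hu, ← rpow_natCast, ← rpow_mul hr0.le, ← rpow_natCast]
      apply rpow_le_rpow_of_exponent_ge hr0 hr1
      have e3 : (2 * (N0 : ℝ)) / θ ≤ m := Nat.le_ceil _
      rw [div_le_iff₀ hθ] at e3
      push_cast
      linarith
    have hf : (0 : ℝ) < m.factorial := by exact_mod_cast Nat.factorial_pos m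
    rw [exp_neg]
    have e4 : (exp ((2 * K * u)⁻¹))⁻¹ ≤ (((2 * K * u)⁻¹) ^ m / m.factorial)⁻¹ :=
      inv_anti₀ (by positivity) e1
    refine e4.trans ?_
    have e5 : (((2 * K * u)⁻¹) ^ m / m.factorial)⁻¹ = c * u ^ m := by
      rw [hc, inv_pow, inv_div, div_inv_eq_mul, mul_pow]
      ring
    rw [e5]
    exact mul_le_mul_of_nonneg_left e2 (by positivity)
  have hPB : ∀ k ≤ 1, PB C0 q u J n n1 (iteratedDeriv k E) := by
    intro k hk
    have hCle : C ≤ C0 := le_abs_self C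
    constructor
    · intro y y1 y2
      obtain ⟨g, -⟩ := hb y k hk
      have g1 := g y1 y2
      have hy : 1 / 2 ≤ 1 + r * y := by
        have e1 : -1 ≤ u * y := y1
        have e2 : r ≤ q ^ 4 * u := by
          rw [← hq8]
          calc q ^ 8 = q ^ 4 * (q ^ 3 * q) := by ring
            _ ≤ q ^ 4 * (1 * u) := by
              apply mul_le_mul_of_nonneg_left _ (by positivity)
              exact mul_le_mul (pow_le_one₀ hq0.le hq1) hqu hq0.le (by norm_num)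
            _ = _ := by ring
        have e3 : q ^ 4 * u * y ≤ r * y := mul_le_mul_of_nonpos_right e2 y2
        have e4 : q ^ 4 * -1 ≤ q ^ 4 * (u * y) := mul_le_mul_of_nonneg_left e1 (by positivity)
        linarith
      have g2 := xterm (α := α) (n := n) h0 h1 hr0 hr1 hs0 hs1 hlsr hy
      have g3 : (1 + r * y) ^ (α / 2 - 7 / 2) ≤ 16 := by
        have f1 : (1 + r * y) ^ (α / 2 - 7 / 2) ≤ (1 / 2) ^ (α / 2 - 7 / 2) :=
          rpow_le_rpow_of_nonpos (by norm_num) hy (by linarith)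
        have f2 : ((1 : ℝ) / 2) ^ (α / 2 - 7 / 2) ≤ (1 / 2) ^ (-4 : ℝ) :=
          rpow_le_rpow_of_exponent_ge (by norm_num) (by norm_num) (by linarith)
        have f3 : ((1 : ℝ) / 2) ^ (-4 : ℝ) = 16 := by
          rw [rpow_neg (by norm_num), show (4 : ℝ) = ((4 : ℕ) : ℝ) by norm_num, rpow_natCast]
          norm_num
        linarith
      have g4 : 0 ≤ lam α t ^ ((7 : ℝ) / 2) * r ^ (2 * n) * (s + lam α t * y) ^ (α / 2 - 7 / 2) := by
        have e1 : 0 < s + lam α t * y := by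
          rw [hlsr]
          have : s + s * r * y = s * (1 + r * y) := by ring
          rw [this]
          apply mul_pos hs0
          linarith
        positivity
      rw [hq8]
      refine g1.trans (add_le_add ?_ ?_)
      · apply mul_le_mul_of_nonneg_right _ (by positivity)
        exact mul_le_mul_of_nonneg_right hCle (by positivity)
      · calc C * lam α t ^ ((7 : ℝ) / 2) * r ^ (2 * n) * (s + lam α t * y) ^ (α / 2 - 7 / 2)
            = C * (lam α t ^ ((7 : ℝ) / 2) * r ^ (2 * n) * (s + lam α t * y) ^ (α / 2 - 7 / 2)) := by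
              ring
          _ ≤ C0 * (lam α t ^ ((7 : ℝ) / 2) * r ^ (2 * n) *
              (s + lam α t * y) ^ (α / 2 - 7 / 2)) := mul_le_mul_of_nonneg_right hCle g4
          _ ≤ C0 * (r ^ (2 * n + 3) * 16) := by
              apply mul_le_mul_of_nonneg_left _ hC00
              exact g2.trans (mul_le_mul_of_nonneg_left g3 (by positivity))
          _ = _ := by ring
    · intro y y1
      obtain ⟨-, g, -⟩ := hb y k hk
      have g1 := g y1
      have hry : 0 ≤ r * y := by positivity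
      have g2 := xterm (α := α) (n := n) (y := y) h0 h1 hr0 hr1 hs0 hs1 hlsr (by linarith)
      have g3 : (1 + r * y) ^ (α / 2 - 7 / 2) ≤ (1 + r * y)⁻¹ := by
        rw [← rpow_neg_one]
        exact rpow_le_rpow_of_exponent_le (by linarith) (by linarith)
      have g4 : 0 ≤ lam α t ^ ((7 : ℝ) / 2) * r ^ (2 * n) * (s + lam α t * y) ^ (α / 2 - 7 / 2) := by
        positivity
      have g5 : exp (-y / 4) = exp (-(y / 4)) := by congr 1; ring
      rw [hq8]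
      rw [g5] at g1
      refine g1.trans (add_le_add ?_ ?_)
      · apply mul_le_mul_of_nonneg_right _ (by positivity)
        exact mul_le_mul_of_nonneg_right hCle (by positivity)
      · calc C * lam α t ^ ((7 : ℝ) / 2) * r ^ (2 * n) * (s + lam α t * y) ^ (α / 2 - 7 / 2)
            = C * (lam α t ^ ((7 : ℝ) / 2) * r ^ (2 * n) * (s + lam α t * y) ^ (α / 2 - 7 / 2)) := by
              ring
          _ ≤ C0 * (lam α t ^ ((7 : ℝ) / 2) * r ^ (2 * n) *
              (s + lam α t * y) ^ (α / 2 - 7 / 2)) := mul_le_mul_of_nonneg_right hCle g4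
          _ ≤ C0 * (r ^ (2 * n + 3) * (1 + r * y)⁻¹) := by
              apply mul_le_mul_of_nonneg_left _ hC00
              exact g2.trans (mul_le_mul_of_nonneg_left g3 (by positivity))
          _ = _ := by ring
    · intro y y1
      obtain ⟨-, -, g, -⟩ := hb y k hk
      have g1 := g y1
      have e1 : q ^ 12 = r ^ ((3 : ℝ) / 2) := by
        rw [hqn 12]
        norm_num
      rw [e1]
      exact g1.trans (mul_le_mul_of_nonneg_right hCle (rpow_pos_of_pos hr0 _).le)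
    · intro y y1
      obtain ⟨-, -, -, g⟩ := hb y k hk
      have e1 : (q ^ 4)⁻¹ = r ^ (-((1 : ℝ) / 2)) := by
        rw [hqn 4, ← rpow_neg hr0.le]
        norm_num
      rw [e1] at y1
      have g1 := g y1
      have g5 : exp (-|y| / 2) = exp (-(|y| / 2)) := by congr 1; ring
      rw [g5] at g1
      exact g1.trans (mul_le_mul_of_nonneg_right hCle (exp_pos _).le)
  have P0 := hPB 0 (by norm_num)
  have P1 := hPB 1 (by norm_num)
  rw [iteratedDeriv_zero] at P0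
  rw [iteratedDeriv_one] at P1
  have hfin := core (c := c) (N0 := N0) hK hC00 hB hq0 hq1 hqu hu1 hun hN hJ hn hqB hcc hE P0 P1
  have e20 : q ^ 20 = r ^ ((5 : ℝ) / 2) := by
    rw [hqn 20]
    norm_num
  have e10 : q ^ 10 = r ^ ((5 : ℝ) / 4) := by
    rw [hqn 10]
    norm_num
  rw [hq8, e20, e10] at hfin
  exact hfin

end RESI

open RESI in
theorem thm_RESI (hC : S_CURV) : S_RESI := by
  intro α K θ C J n N0 n1 h0 h1 hK hθ hθ8 hθn hN hJ hn
  obtain ⟨hcur, -, -, -, hT, -⟩ := hC α h0 h1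
  obtain ⟨T, C', hT0, h⟩ := resi_aux hC α K θ C J n (N0 + 1) n1 h0 h1 hK hθ hθ8 hθn (by omega)
    (by omega) hn
  obtain ⟨T2, hT2, h2⟩ := hT (min 1 (1 / (|C'| + 1))) (by positivity)
  refine ⟨min T T2, C', lt_min hT0 hT2, fun t ht E hE hb => ?_⟩
  obtain ⟨g1, g2, g3, g4⟩ := h t ⟨ht.1, ht.2.trans (min_le_left _ _)⟩ E hE hb
  refine ⟨g1.trans ?_, g2, g3, g4⟩
  obtain ⟨-, -, hr0, -⟩ := hcur t ht.1
  obtain ⟨-, -, tr⟩ := h2 t ht.1 (ht.2.trans (min_le_right _ _))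
  have e1 : rho α t ≤ 1 := tr.le.trans (min_le_left _ _)
  have e2 : rho α t ≤ 1 / (|C'| + 1) := tr.le.trans (min_le_right _ _)
  have e3 : C' * rho α t ^ 2 ≤ 1 := by
    have f1 : rho α t ^ 2 ≤ rho α t := by nlinarith
    have f2 : C' ≤ |C'| + 1 := by linarith [le_abs_self C']
    have f3 : 0 ≤ |C'| + 1 := by positivity
    rw [le_div_iff₀ (by positivity)] at e2
    calc C' * rho α t ^ 2 ≤ (|C'| + 1) * rho α t ^ 2 :=
          mul_le_mul_of_nonneg_right f2 (sq_nonneg _)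
      _ ≤ (|C'| + 1) * rho α t := mul_le_mul_of_nonneg_left f1 f3
      _ ≤ 1 := by linarith
  calc C' * rho α t ^ (2 * (N0 + 1)) = (C' * rho α t ^ 2) * rho α t ^ (2 * N0) := by ring
    _ ≤ 1 * rho α t ^ (2 * N0) := mul_le_mul_of_nonneg_right e3 (by positivity)
    _ = _ := one_mul _

end Pool.Agent.Helper41.KV
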